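import Pool.Agent.X227.TD.Fold

/-!
There is a Turing degree below the degree of the omega-jump of the empty set which contains no
theory of a computable structure.
-/

namespace Pool.Agent.Results.MP_f36693_lc.DegreeWithoutTheory

open Pool.Agent.Helper227 Pool.Agent.H685R3 Pool.Agent.X227.TD

/-- There is a set `D`, Turing reducible to the omega-jump of the empty set, which is not Turing
equivalent to the theory of any computable structure in any computable signature. -/
theorem result : ∃ D : ℕ → Bool, TLe D (om fun _ => false) ∧
    ∀ S : Sig, S.IsComputable → ∀ A : Str S, A.IsComputable →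
      ¬ (TLe (theory A) D ∧ TLe D (theory A)) := by
  have hO : TLe (jump fun _ => false) (om fun _ => false) := tLe_jn_om (fun _ => false) 1
  refine ⟨DD (om fun _ => false), DD_le hO, fun S hS A hA => ?_⟩
  obtain ⟨f, hf, h⟩ := theory_le hS A hA (fun _ => false)
  exact DD_main _ _ f hf h

end Pool.Agent.Results.MP_f36693_lc.DegreeWithoutTheory
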